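import Pool.Agent.H15.SF1

set_option autoImplicit false

namespace Pool.Agent.Results.MP_7c6dee_nt.Queneau

theorem result :
    ∃ (m : ℕ) (u : ℕ → ℕ), 1 ≤ m ∧ (∀ i, i < m → 0 < u i) ∧
      (∀ i, i + 1 < m → u i < u (i + 1)) ∧
      (∀ n, m ≤ n →
        IsLeast {x : ℕ | u (n - 1) < x ∧ ∀ i j, i < j → j < n → x ≠ u i + u j} (u n)) ∧
      ¬ ∃ N p : ℕ, 1 ≤ p ∧ ∀ n, N ≤ n →
        ((u (n + p + 1) : ℤ) - (u (n + p) : ℤ)) = ((u (n + 1) : ℤ) - (u n : ℤ)) := by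
  obtain ⟨k, a, h1, h2, h3, h4, h5, h6⟩ := Pool.Agent.H15.SF.seq_exists 0 (Or.inl rfl)
  refine ⟨k, a, h1, fun i _ => h2 i, fun i _ => h3 (Nat.lt_succ_self i), fun n hn => ?_, ?_⟩
  · obtain ⟨n, rfl⟩ : ∃ t, n = t + 1 := ⟨n - 1, by omega⟩
    refine ⟨⟨h3 (by omega), fun i j hij _ hh => h4 i j (n + 1) (by omega) hh.symm⟩, ?_⟩
    intro x hx
    by_contra hlt
    obtain ⟨i, j, b1, b2, b3, b4⟩ := h5 n x hn (by simpa using hx.1) (by omega)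
    rcases lt_or_gt_of_ne (b3 rfl) with c | c
    · exact hx.2 i j c (by omega) b4.symm
    · exact hx.2 j i c (by omega) (by omega)
  · rintro ⟨N, p, hp, hN⟩
    exact h6 p N hp (fun n hn => by have := hN n hn; omega)

end Pool.Agent.Results.MP_7c6dee_nt.Queneau
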